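import Pool.Agent.Helper99.SC.Topo

/-!
Module SC1: Euler's formula and potentials (linear algebra over `ZMod 2`).
-/

set_option autoImplicit false

namespace Pool.Agent.Helper99.SC.FluxProof

open Equiv Module

variable {D : Type}

/-- functions constant on the orbits -/
def Fix (S : Set (Perm D)) : Submodule (ZMod 2) (D → ZMod 2) where
  carrier := {f | ∀ σ ∈ S, ∀ d, f (σ d) = f d}
  add_mem' := by
    intro a b ha hb σ hσ d
    simp only [Pi.add_apply]
    rw [ha σ hσ d, hb σ hσ d]
  zero_mem' := by intro σ _ d; rfl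
  smul_mem' := by
    intro c a ha σ hσ d
    simp only [Pi.smul_apply]
    rw [ha σ hσ d]

lemma mem_fix {S : Set (Perm D)} {f : D → ZMod 2} :
    f ∈ Fix S ↔ ∀ σ ∈ S, ∀ d, f (σ d) = f d := Iff.rfl

lemma fix_closure {S : Set (Perm D)} {f : D → ZMod 2} (hf : f ∈ Fix S) (σ : Perm D)
    (hσ : σ ∈ Subgroup.closure S) (d : D) : f (σ d) = f d := by
  induction hσ using Subgroup.closure_induction generalizing d with
  | mem x hx => exact hf x hx d
  | one => rfl
  | mul x y _ _ hx hy => rw [Perm.mul_apply, hx, hy]
  | inv x _ hx =>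
    have := hx (x⁻¹ d)
    have e : x (x⁻¹ d) = d := x.apply_symm_apply d
    rw [e] at this
    exact this.symm

noncomputable def fixEquiv (S : Set (Perm D)) :
    (MulAction.orbitRel.Quotient (Subgroup.closure S) D → ZMod 2) ≃ₗ[ZMod 2] Fix S where
  toFun q := ⟨fun d => q (Quotient.mk'' d), by
    intro σ hσ d
    have : (Quotient.mk'' (σ d) : MulAction.orbitRel.Quotient (Subgroup.closure S) D) =
        Quotient.mk'' d := by
      apply Quotient.sound'
      exact ⟨⟨σ, Subgroup.subset_closure hσ⟩, rfl⟩
    simp only [this]⟩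
  invFun f := fun q => Quotient.liftOn' q f.1 (by
    rintro a b ⟨⟨σ, hσ⟩, h⟩
    have h' : σ b = a := h
    rw [← h']
    exact fix_closure f.2 σ hσ b)
  left_inv := by
    intro q
    funext x
    induction x using Quotient.inductionOn'
    rfl
  right_inv := by
    intro f
    rfl
  map_add' := by intro a b; rfl
  map_smul' := by intro c a; rfl

lemma finrank_fix [Finite D] (S : Set (Perm D)) : finrank (ZMod 2) (Fix S) = orb S := by
  let _ : Fintype (MulAction.orbitRel.Quotient (Subgroup.closure S) D) := Fintype.ofFinite _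
  rw [← (fixEquiv S).finrank_eq, Module.finrank_fintype_fun_eq_card, orb, Nat.card_eq_fintype_card]

/-- `g ↦ g ∘ π + g` -/
def bd (π : Perm D) : (D → ZMod 2) →ₗ[ZMod 2] (D → ZMod 2) where
  toFun g := fun d => g (π d) + g d
  map_add' := by intro a b; funext d; simp only [Pi.add_apply]; ring
  map_smul' := by intro c a; funext d; simp only [Pi.smul_apply, smul_eq_mul, RingHom.id_apply]; ring

lemma two_eq (a : ZMod 2) : a + a = 0 := CharTwo.add_self_eq_zero a

lemma add_eq_zero_iff (a b : ZMod 2) : a + b = 0 ↔ a = b := CharTwo.add_eq_zero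

lemma ker_bd (π : Perm D) : LinearMap.ker (bd π) = Fix {π} := by
  ext f
  rw [LinearMap.mem_ker, mem_fix]
  constructor
  · intro h σ hσ d
    rw [Set.mem_singleton_iff] at hσ
    subst hσ
    exact (add_eq_zero_iff _ _).1 (congrFun h d)
  · intro h
    funext d
    exact (add_eq_zero_iff _ _).2 (h π rfl d)

/-- the bilinear form -/
noncomputable def B (D : Type) [Fintype D] : LinearMap.BilinForm (ZMod 2) (D → ZMod 2) :=
  LinearMap.mk₂ (ZMod 2) (fun f g => ∑ d, f d * g d)
    (by intro a b c; simp only [Pi.add_apply, add_mul, Finset.sum_add_distrib])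
    (by intro r a b; simp only [Pi.smul_apply, smul_eq_mul, mul_assoc, Finset.mul_sum])
    (by intro a b c; simp only [Pi.add_apply, mul_add, Finset.sum_add_distrib])
    (by intro r a b; simp only [Pi.smul_apply, smul_eq_mul, Finset.mul_sum]
        apply Finset.sum_congr rfl; intro d _; ring)

lemma B_apply [Fintype D] (f g : D → ZMod 2) : B D f g = ∑ d, f d * g d := rfl

lemma B_symm [Fintype D] (f g : D → ZMod 2) : B D f g = B D g f := by
  rw [B_apply, B_apply]
  exact Finset.sum_congr rfl fun d _ => mul_comm _ _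

lemma B_refl [Fintype D] : (B D).IsRefl := by
  intro f g h
  rw [B_symm]
  exact h

lemma B_nondeg [Fintype D] : (B D).Nondegenerate := by
  classical
  have key : ∀ f : D → ZMod 2, (∀ g, B D f g = 0) → f = 0 := by
    intro f h
    funext d
    have := h (Pi.single d 1)
    rw [B_apply, Finset.sum_eq_single d] at this
    · simpa using this
    · intro b _ hb
      simp [hb]
    · intro hd
      exact absurd (Finset.mem_univ d) hd
  refine ⟨fun f h => key f h, fun f h => key f fun g => ?_⟩
  rw [B_symm]
  exact h g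

section

variable [Fintype D]

lemma mem_orth {W : Submodule (ZMod 2) (D → ZMod 2)} {f : D → ZMod 2} :
    f ∈ (B D).orthogonal W ↔ ∀ g ∈ W, ∑ d, g d * f d = 0 := Iff.rfl

lemma finrank_W : finrank (ZMod 2) (D → ZMod 2) = Fintype.card D := by
  rw [Module.finrank_fintype_fun_eq_card]

lemma rank_bd (π : Perm D) :
    finrank (ZMod 2) (LinearMap.range (bd π)) + orb {π} = Fintype.card D := by
  rw [← finrank_fix, ← ker_bd, ← finrank_W]
  exact LinearMap.finrank_range_add_finrank_ker (bd π)

lemma orth_fix (π : Perm D) : LinearMap.range (bd π) = (B D).orthogonal (Fix {π}) := by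
  apply Submodule.eq_of_le_of_finrank_eq
  · rintro _ ⟨g, rfl⟩
    rw [mem_orth]
    intro f hf
    have h1 : ∀ d, f d * (bd π g) d = f (π d) * g (π d) + f d * g d := by
      intro d
      have := hf π rfl d
      rw [this]
      show f d * (g (π d) + g d) = _
      ring
    simp_rw [h1]
    rw [Finset.sum_add_distrib, Equiv.sum_comp π (fun d => f d * g d)]
    exact two_eq _
  · rw [LinearMap.BilinForm.finrank_orthogonal B_nondeg, finrank_fix, finrank_W]
    have := rank_bd π
    omega

lemma range_rev (rev : Perm D) (h1 : ∀ d, rev (rev d) = d) (h2 : ∀ d, rev d ≠ d) :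
    LinearMap.range (bd rev) = Fix {rev} := by
  apply le_antisymm
  · rintro _ ⟨g, rfl⟩ σ hσ d
    rw [Set.mem_singleton_iff] at hσ
    subst hσ
    show g (σ (σ d)) + g (σ d) = g (σ d) + g d
    rw [h1, add_comm]
  · intro f hf
    have ι := Fintype.equivFin D
    refine ⟨fun d => if ι d < ι (rev d) then f d else 0, ?_⟩
    funext d
    show (if ι (rev d) < ι (rev (rev d)) then f (rev d) else 0) +
      (if ι d < ι (rev d) then f d else 0) = f d
    rw [h1]
    have h3 : ι d ≠ ι (rev d) := fun h => h2 d (ι.injective h).symm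
    rcases lt_or_gt_of_ne h3 with h4 | h4
    · rw [if_pos h4, if_neg (not_lt.mpr h4.le), zero_add]
    · rw [if_pos h4, if_neg (not_lt.mpr h4.le), add_zero]
      exact hf rev rfl d

lemma card_D (rev : Perm D) (h1 : ∀ d, rev (rev d) = d) (h2 : ∀ d, rev d ≠ d) :
    Fintype.card D = 2 * orb {rev} := by
  have := rank_bd rev
  rw [range_rev rev h1 h2, finrank_fix] at this
  omega

omit [Fintype D] in
lemma fix_inf (a b : Perm D) : Fix {a} ⊓ Fix {b} = Fix {a, b} := by
  ext f
  constructor
  · rintro ⟨ha, hb⟩ σ hσ
    rcases hσ with rfl | hσ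
    · exact ha _ rfl
    · exact hb σ hσ
  · intro h
    exact ⟨fun σ hσ => h σ (by rw [Set.mem_singleton_iff] at hσ; simp [hσ]),
      fun σ hσ => h σ (by rw [Set.mem_singleton_iff] at hσ; simp [hσ])⟩

/-- the cycle space -/
lemma finrank_cycles (rot rev : Perm D) (h1 : ∀ d, rev (rev d) = d) (h2 : ∀ d, rev d ≠ d) :
    finrank (ZMod 2) (Fix {rev} ⊓ LinearMap.range (bd rot) : Submodule (ZMod 2) (D → ZMod 2))
      + orb {rot} = orb {rev} + orb {rot, rev} := by
  have e : (Fix {rev} ⊓ LinearMap.range (bd rot) : Submodule (ZMod 2) (D → ZMod 2)) =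
      (B D).orthogonal (Fix {rot} ⊔ Fix {rev}) := by
    have hr : ∀ f, f ∈ Fix {rev} ↔ f ∈ (B D).orthogonal (Fix {rev}) := by
      intro f
      rw [← orth_fix, range_rev rev h1 h2]
    ext f
    rw [Submodule.mem_inf, hr, orth_fix, mem_orth, mem_orth, mem_orth]
    constructor
    · rintro ⟨ha, hb⟩ g hg
      obtain ⟨u, hu, v, hv, rfl⟩ := Submodule.mem_sup.1 hg
      simp only [Pi.add_apply, add_mul, Finset.sum_add_distrib]
      rw [hb u hu, ha v hv, add_zero]
    · intro h
      exact ⟨fun g hg => h g (Submodule.mem_sup_right hg), fun g hg => h g (Submodule.mem_sup_left hg)⟩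
  rw [e, LinearMap.BilinForm.finrank_orthogonal B_nondeg, finrank_W, card_D rev h1 h2]
  have h3 := Submodule.finrank_sup_add_finrank_inf_eq (Fix {rot}) (Fix ({rev} : Set (Perm D)))
  rw [fix_inf, finrank_fix, finrank_fix, finrank_fix] at h3
  have h4 : finrank (ZMod 2) (Fix {rot} ⊔ Fix {rev} : Submodule (ZMod 2) (D → ZMod 2)) ≤
      2 * orb {rev} := by
    rw [← card_D rev h1 h2, ← finrank_W]
    exact Submodule.finrank_le _
  omega

lemma orb_conj (rot rev : Perm D) (h1 : ∀ d, rev (rev d) = d) :
    orb {rev * rot} = orb {rot * rev} := by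
  rw [← finrank_fix, ← finrank_fix]
  apply LinearEquiv.finrank_eq
  refine
    { toFun := fun f => ⟨fun d => f.1 (rev d), ?_⟩
      invFun := fun f => ⟨fun d => f.1 (rev d), ?_⟩
      left_inv := ?_
      right_inv := ?_
      map_add' := ?_
      map_smul' := ?_ }
  · intro σ hσ d
    rw [Set.mem_singleton_iff] at hσ
    subst hσ
    exact f.2 _ rfl (rev d)
  · intro a b; rfl
  · intro c a; rfl
  · intro σ hσ d
    rw [Set.mem_singleton_iff] at hσ
    subst hσ
    have := f.2 _ rfl (rev d)
    simp only [Perm.mul_apply, h1] at this ⊢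
    exact this
  · intro f
    apply Subtype.ext
    funext d
    simp only [h1]
  · intro f
    apply Subtype.ext
    funext d
    simp only [h1]

omit [Fintype D] in
lemma isPot_iff (rot rev : Perm D) (z χ : D → ZMod 2) :
    IsPot rot rev z χ ↔ χ ∈ Fix {rev * rot} ∧ bd rev χ = z := by
  constructor
  · rintro ⟨ha, hb⟩
    have e : bd rev χ = z := by
      funext d
      show χ (rev d) + χ d = z d
      rw [ha d, add_comm (χ d), add_assoc, two_eq, add_zero]
    refine ⟨?_, e⟩
    intro σ hσ d
    rw [Set.mem_singleton_iff] at hσ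
    subst hσ
    rw [Perm.mul_apply, ha (rot d), hb d, add_assoc, two_eq, add_zero]
  · rintro ⟨ha, rfl⟩
    constructor
    · intro d
      show χ (rev d) = χ d + (χ (rev d) + χ d)
      rw [add_comm (χ (rev d)), ← add_assoc, two_eq, zero_add]
    · intro d
      show χ (rot d) = χ d + (χ (rev (rot d)) + χ (rot d))
      have : χ (rev (rot d)) = χ d := ha _ rfl d
      rw [this, ← add_assoc, two_eq, zero_add]

lemma finrank_pots (rot rev : Perm D) (h1 : ∀ d, rev (rev d) = d) :
    finrank (ZMod 2) ((Fix {rev * rot}).map (bd rev)) + orb {rot, rev} = orb {rot * rev} := by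
  have h := LinearMap.finrank_range_add_finrank_ker ((bd rev).domRestrict (Fix {rev * rot}))
  rw [LinearMap.range_domRestrict, finrank_fix, orb_conj rot rev h1] at h
  have e : finrank (ZMod 2) (LinearMap.ker ((bd rev).domRestrict (Fix {rev * rot}))) =
      orb {rot, rev} := by
    rw [LinearMap.ker_domRestrict]
    have e2 : finrank (ZMod 2) (Submodule.comap (Fix {rev * rot}).subtype (LinearMap.ker (bd rev)))
        = finrank (ZMod 2) (Fix {rot, rev}) := by
      have e3 : (Submodule.comap (Fix {rev * rot}).subtype (LinearMap.ker (bd rev))).map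
          (Fix {rev * rot}).subtype = Fix {rot, rev} := by
        rw [Submodule.map_comap_subtype, ker_bd]
        ext f
        constructor
        · rintro ⟨ha, hb⟩ σ hσ d
          rcases hσ with rfl | hσ
          · have h3 : f (rev (σ d)) = f d := ha _ rfl d
            rw [hb rev rfl] at h3
            exact h3
          · exact hb σ hσ d
        · intro h
          have h3 : ∀ d, f (rot d) = f d := h rot (by simp)
          have h4 : ∀ d, f (rev d) = f d := h rev (by simp)
          refine ⟨?_, ?_⟩
          · intro σ hσ d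
            rw [Set.mem_singleton_iff] at hσ
            subst hσ
            rw [Perm.mul_apply, h4, h3]
          · intro σ hσ d
            rw [Set.mem_singleton_iff] at hσ
            subst hσ
            exact h4 d
      rw [← e3, Submodule.finrank_map_subtype_eq]
    rw [e2, finrank_fix]
  rw [e] at h
  exact h

end

theorem flux_iff (D : Type) [Fintype D] (rot rev : Perm D) (h1 : ∀ d, rev (rev d) = d)
    (h2 : ∀ d, rev d ≠ d) :
    (orb {rot} + orb {rot * rev} = orb {rev} + 2 * orb {rot, rev} ↔ Flux rot rev) := by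
  have hle : (Fix {rev * rot}).map (bd rev) ≤ Fix {rev} ⊓ LinearMap.range (bd rot) := by
    rintro _ ⟨χ, hχ, rfl⟩
    have h3 := (isPot_iff rot rev (bd rev χ) χ).2 ⟨hχ, rfl⟩
    constructor
    · rw [← range_rev rev h1 h2]
      exact ⟨χ, rfl⟩
    · refine ⟨fun d => χ (rot.symm d), ?_⟩
      funext d
      show χ (rot.symm (rot d)) + χ (rot.symm d) = _
      rw [rot.symm_apply_apply]
      have h4 := h3.2 (rot.symm d)
      rw [rot.apply_symm_apply] at h4
      rw [h4, add_right_comm, two_eq, zero_add]
  have hflux : Flux rot rev ↔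
      Fix {rev} ⊓ LinearMap.range (bd rot) ≤ (Fix {rev * rot}).map (bd rev) := by
    constructor
    · intro hF z hz
      obtain ⟨hz1, g, hg⟩ := hz
      have hg' : ∃ g' : D → ZMod 2, ∀ d, g' (rot d) = g' d + z (rot d) := by
        refine ⟨fun d => g (rot d), fun d => ?_⟩
        rw [← hg]
        show g (rot (rot d)) = g (rot d) + (g (rot (rot d)) + g (rot d))
        rw [add_comm (g (rot (rot d))), ← add_assoc, two_eq, zero_add]
      obtain ⟨χ, hχ⟩ := hF z (fun d => hz1 rev rfl d) hg'
      exact ⟨χ, ((isPot_iff rot rev z χ).1 hχ).1, ((isPot_iff rot rev z χ).1 hχ).2⟩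
    · intro hF z hz1 hz2
      obtain ⟨g, hg⟩ := hz2
      have hz : z ∈ Fix {rev} ⊓ LinearMap.range (bd rot) := by
        constructor
        · intro σ hσ d
          rw [Set.mem_singleton_iff] at hσ
          subst hσ
          exact hz1 d
        · refine ⟨fun d => g (rot.symm d), ?_⟩
          funext d
          show g (rot.symm (rot d)) + g (rot.symm d) = _
          rw [rot.symm_apply_apply]
          have h4 := hg (rot.symm d)
          rw [rot.apply_symm_apply] at h4
          rw [h4, add_comm, ← add_assoc, two_eq, zero_add]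
      obtain ⟨χ, hχ, e⟩ := hF hz
      exact ⟨χ, (isPot_iff rot rev z χ).2 ⟨hχ, e⟩⟩
  rw [hflux]
  have hc := finrank_cycles rot rev h1 h2
  have hp := finrank_pots rot rev h1
  constructor
  · intro h
    have : (Fix {rev * rot}).map (bd rev) = Fix {rev} ⊓ LinearMap.range (bd rot) := by
      apply Submodule.eq_of_le_of_finrank_eq hle
      omega
    exact this.ge
  · intro h
    have e := le_antisymm hle h
    rw [e] at hp
    omega

theorem sc_flux : M_flux := by
  intro D _ rot rev h1 h2
  let _ : Fintype D := Fintype.ofFinite D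
  exact flux_iff D rot rev h1 h2

end Pool.Agent.Helper99.SC.FluxProof
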