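import Pool.Agent.Helper99.SC.Basic

/-!
Module SC5: crossing edges drawn on the same side meet.
-/

set_option autoImplicit false

namespace Pool.Agent.Helper99.SC.KeyProof

open Drawing

variable {V : Type} {T : Drawing V}

lemma two_eq (a : ZMod 2) : a + a = 0 := CharTwo.add_self_eq_zero a

lemma isPot_add {D : Type} {rot rev : Equiv.Perm D} {z z' χ χ' : D → ZMod 2}
    (h : IsPot rot rev z χ) (h' : IsPot rot rev z' χ') :
    IsPot rot rev (fun d => z d + z' d) (fun d => χ d + χ' d) := by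
  constructor
  · intro d
    show χ (rev d) + χ' (rev d) = _
    rw [h.1, h'.1]; ring
  · intro d
    show χ (rot d) + χ' (rot d) = _
    rw [h.2, h'.2]; ring

lemma sum_periodic {f : ℕ → ZMod 2} {n : ℕ} (hf : ∀ k, f (k + n) = f k) (p : ℕ) :
    ∑ k ∈ Finset.Ico p (p + n), f k = ∑ k ∈ Finset.range n, f k := by
  induction p with
  | zero => rw [zero_add, Finset.range_eq_Ico]
  | succ p ih =>
    rw [← ih]
    rcases Nat.eq_zero_or_pos n with rfl | hn
    · simp
    have h1 : ∑ k ∈ Finset.Ico p (p + n + 1), f k = ∑ k ∈ Finset.Ico p (p + n), f k + f (p + n) :=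
      Finset.sum_Ico_succ_top (by omega) f
    have h2 : ∑ k ∈ Finset.Ico p (p + n + 1), f k = f p + ∑ k ∈ Finset.Ico (p + 1) (p + n + 1), f k :=
      Finset.sum_eq_sum_Ico_succ_bot (by omega) f
    rw [show p + 1 + n = p + n + 1 by omega]
    rw [h1, hf] at h2
    rw [add_comm] at h2
    exact (add_left_cancel h2).symm

lemma sum_shift {f : ℕ → ZMod 2} {n : ℕ} (hf : ∀ k, f (k + n) = f k) (p q : ℕ) :
    ∑ k ∈ Finset.Ico (p + n) (q + n), f k = ∑ k ∈ Finset.Ico p q, f k := by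
  rw [← Finset.sum_Ico_add']
  exact Finset.sum_congr rfl fun k _ => hf k

lemma cnt_per {n : ℕ} {c : ℕ → V} {w : ℕ → List T.Dart} (hS : T.Sys n c w) (d : T.Dart) (k : ℕ) :
    T.cnt (w (k + n)) d = T.cnt (w k) d := by rw [hS.wper]

lemma ych_shift {n : ℕ} {c : ℕ → V} {w : ℕ → List T.Dart} (hS : T.Sys n c w) (l : List T.Dart)
    (p q : ℕ) : T.ych w l (p + n) (q + n) = T.ych w l p q := by
  funext d
  unfold ych
  rw [sum_shift (f := fun k => T.cnt (w k) d) (cnt_per hS d)]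

/-- the walks of the segment -/
def seg (c : ℕ → V) (w : ℕ → List T.Dart) (p r : ℕ) : List (V × V × List T.Dart) :=
  (List.range r).map fun k => (c (p + k), c (p + k + 1), w (p + k))

open Classical in
lemma seg_count (c : ℕ → V) (w : ℕ → List T.Dart) (p r : ℕ) (v : V) :
    ((seg c w p r).map fun w => w.1).count v + (if c (p + r) = v then 1 else 0) =
      ((seg c w p r).map fun w => w.2.1).count v + (if c p = v then 1 else 0) := by
  induction r with
  | zero => simp [seg]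
  | succ r ih =>
    have e : seg c w p (r + 1) = seg c w p r ++ [(c (p + r), c (p + r + 1), w (p + r))] := by
      simp [seg, List.range_succ]
    rw [e]
    simp only [List.map_append, List.count_append, List.map_cons, List.map_nil,
      List.count_singleton, beq_iff_eq]
    rw [show p + (r + 1) = p + r + 1 by omega]
    omega

lemma seg_sum (c : ℕ → V) (w : ℕ → List T.Dart) (p r : ℕ) (d : T.Dart) :
    ((seg c w p r).map fun w => T.cnt w.2.2 d).sum = ∑ k ∈ Finset.Ico p (p + r), T.cnt (w k) d := by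
  induction r with
  | zero => simp [seg]
  | succ r ih =>
    have e : seg c w p (r + 1) = seg c w p r ++ [(c (p + r), c (p + r + 1), w (p + r))] := by
      simp [seg, List.range_succ]
    rw [e, List.map_append, List.sum_append, ih, ← add_assoc p r 1,
      Finset.sum_Ico_succ_top (by omega)]
    simp

lemma exists_pot (hpot : M_pot) {n : ℕ} {c : ℕ → V} {w : ℕ → List T.Dart} (hS : T.Sys n c w)
    {p q : ℕ} (hpq : p ≤ q) {l : List T.Dart} (hl : T.IsWalk (c p) (c q) l) :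
    ∃ χ, IsPot T.rot T.rev (T.ych w l p q) χ := by
  classical
  obtain ⟨r, rfl⟩ : ∃ r, q = p + r := ⟨q - p, by omega⟩
  have hw : ∀ x ∈ (c p, c (p + r), l) :: seg c w p r, T.IsWalk x.1 x.2.1 x.2.2 := by
    intro x hx
    rcases List.mem_cons.1 hx with rfl | hx
    · exact hl
    · obtain ⟨k, _, rfl⟩ := List.mem_map.1 hx
      exact hS.walk (p + k)
  have hv : ∀ v, Even ((((c p, c (p + r), l) :: seg c w p r).map fun w => w.1).count v +
      (((c p, c (p + r), l) :: seg c w p r).map fun w => w.2.1).count v) := by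
    intro v
    have h := seg_count c w p r v
    simp only [List.map_cons, List.count_cons, beq_iff_eq]
    rw [Nat.even_iff]
    split_ifs at h ⊢ <;> omega
  obtain ⟨χ, hχ⟩ := hpot V T ((c p, c (p + r), l) :: seg c w p r) hw (by convert hv)
  refine ⟨χ, ?_⟩
  convert hχ using 1
  funext d
  rw [List.map_cons, List.sum_cons, seg_sum]
  unfold ych
  rw [add_comm]

lemma exists_dart {n : ℕ} {c : ℕ → V} {w : ℕ → List T.Dart} (hS : T.Sys n c w) (k : ℕ) :
    ∃ d, T.base d = Sum.inl (c k) := by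
  obtain ⟨h, h1, _, _⟩ := hS.walk k
  exact ⟨_, h1⟩

lemma not_mem_of_not_CD {n : ℕ} {c : ℕ → V} {w : ℕ → List T.Dart} (hS : T.Sys n c w) {m : T.Dart}
    (hm : ¬ T.CD c m) (k : ℕ) : T.cnt (w k) m = 0 := by
  by_contra h
  rcases T.mem_of_cnt h with h1 | h1
  · exact hm ⟨k, Or.inl ((hS.walk k).on h1)⟩
  · apply hm
    rw [← T.CD_rev]
    exact ⟨k, Or.inl ((hS.walk k).on h1)⟩

/-- the main computation -/
lemma core (hpot : M_pot) (hs : M_side) (hh : M_half) (ht : M_tri) {n : ℕ} {c : ℕ → V}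
    {w : ℕ → List T.Dart} (hS : T.Sys n c w) {χ : T.Dart → ZMod 2}
    (hχ : IsPot T.rot T.rev (fun d => ∑ k ∈ Finset.range n, T.cnt (w k) d) χ)
    {p q x y : ℕ} (hpq : p + 3 ≤ q) (hqp : q + 3 ≤ p + n) (h1 : p < x) (h2 : x < q) (h3 : q < y)
    (h4 : y < p + n) {l l' : List T.Dart} {m m' : T.Dart} (hl : T.IsWalk (c p) (c q) l)
    (hl' : T.IsWalk (c x) (c y) l') (hm : m ∈ l) (hm' : m' ∈ l') (hcm : ¬ T.CD c m)
    (hcm' : ¬ T.CD c m') (hdis : ∀ d ∈ l', d ∉ l ∧ T.rev d ∉ l) : χ m ≠ χ m' := by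
  obtain ⟨χ₁, hχ₁⟩ := exists_pot hpot hS (by omega : p ≤ q) hl
  have hχ₂ : IsPot T.rot T.rev (T.ych w l q (p + n)) (fun d => χ d + χ₁ d) := by
    have := isPot_add hχ hχ₁
    convert this using 1
    funext d
    have e := sum_periodic (f := fun k => T.cnt (w k) d) (cnt_per hS d) p
    rw [← e]
    unfold ych
    rw [← Finset.sum_Ico_consecutive _ (by omega : p ≤ q) (by omega : q ≤ p + n)]
    have e2 := two_eq (∑ k ∈ Finset.Ico p q, T.cnt (w k) d)
    linear_combination -e2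
  have hχ₁' : IsPot T.rot T.rev (T.ych w l (p + n) (q + n)) χ₁ := by
    rw [ych_shift hS]
    exact hχ₁
  have hcp : c (p + n) = c p := hS.per p
  have hcq : c (q + n) = c q := hS.per q
  have hl2 : T.IsWalk (c (p + n)) (c q) l := by rw [hcp]; exact hl
  obtain ⟨dA, hdA⟩ := exists_dart hS (p + 1)
  obtain ⟨dB, hdB⟩ := exists_dart hS (p + n - 1)
  obtain ⟨dx, hdx⟩ := exists_dart hS x
  obtain ⟨dy, hdy⟩ := exists_dart hS y
  -- the walk `l'` on the two sides
  have a1 := hh V T n c w hS p q (by omega) (by omega) l (Or.inl hl) _ hχ₂ x y l' m' h1 h2 h3 h4 hl'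
    hm' hcm' hdis
  have a2 := hh V T n c w hS q (p + n) (by omega) (by omega) l (Or.inr hl2) _ hχ₁' y (x + n)
    (l'.reverse.map T.rev) (T.rev m') h3 h4 (by omega) (by omega)
    (by rw [hS.per x]; exact hl'.reverse) (T.mem_reverse_rev.2 (by rwa [T.rev_rev]))
    (by rwa [T.CD_rev]) (by
      intro d hd
      have := hdis _ (T.mem_reverse_rev.1 hd)
      rw [T.rev_rev] at this
      exact ⟨this.2, this.1⟩)
  rw [ych_shift hS] at a2
  have a3 : T.ych w l p q (T.rev m') = T.ych w l p q m' := by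
    unfold ych
    simp only [T.cnt_rev]
  have a4 : χ₁ (T.rev m') = χ₁ m' := by
    rw [hχ₁.1, ← a3, a2.1, add_zero]
  -- the tripod lemma
  have a5 := ht V T n c w hS p q hpq hqp l hl m hm hcm χ₁ _ hχ₁ hχ₂ dA dB hdA hdB
  have a6 := hs V T n c w hS p q (by omega) (by omega) l (Or.inl hl) _ hχ₂ (p + 1) x dA dx
    (by omega) (by omega) h1 h2 hdA hdx
  have a7 := hs V T n c w hS q (p + n) (by omega) (by omega) l (Or.inr hl2) _ hχ₁' (p + n - 1) y dB dy
    (by omega) (by omega) h3 h4 hdB hdy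
  have b1 := a1.2 dx hdx
  have b2 := a2.2 dy hdy
  rw [a4] at b2
  intro hcon
  have b3 := two_eq (χ₁ m)
  have b4 := two_eq (χ₁ m')
  have b5 : (0 : ZMod 2) = 1 := by
    linear_combination a5 + a6 - b1 + a7 - b2 - hcon - b3 + b4
  exact absurd b5 (by decide)

/-- the place of another terminal -/
lemma place {Q s t u : ℕ} (hs : s < Q) (ht : t < Q) (hu : u < Q) (hst : s ≠ t) (hus : u ≠ s)
    (hut : u ≠ t) {p q : ℕ} (hp : p = 4 * s + 2) (hq : (s < t ∧ q = 4 * t + 2) ∨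
      (t < s ∧ q = 4 * t + 2 + 4 * Q)) :
    ∃ x, (x = 4 * u + 2 ∨ x = 4 * u + 2 + 4 * Q) ∧
      ((p < x ∧ x < q ∧ ((s < t ∧ s < u ∧ u < t) ∨ (t < s ∧ (u < t ∨ s < u)))) ∨
       (q < x ∧ x < p + 4 * Q ∧ ((s < t ∧ (u < s ∨ t < u)) ∨ (t < s ∧ t < u ∧ u < s)))) := by
  rcases hq with ⟨h, rfl⟩ | ⟨h, rfl⟩
  · rcases lt_trichotomy u s with h1 | h1 | h1
    · exact ⟨4 * u + 2 + 4 * Q, Or.inr rfl, Or.inr (by omega)⟩
    · omega
    · rcases lt_trichotomy u t with h2 | h2 | h2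
      · exact ⟨4 * u + 2, Or.inl rfl, Or.inl (by omega)⟩
      · omega
      · exact ⟨4 * u + 2, Or.inl rfl, Or.inr (by omega)⟩
  · rcases lt_trichotomy u s with h1 | h1 | h1
    · rcases lt_trichotomy u t with h2 | h2 | h2
      · exact ⟨4 * u + 2 + 4 * Q, Or.inr rfl, Or.inl (by omega)⟩
      · omega
      · exact ⟨4 * u + 2 + 4 * Q, Or.inr rfl, Or.inr (by omega)⟩
    · omega
    · exact ⟨4 * u + 2, Or.inl rfl, Or.inl (by omega)⟩

theorem sc_key (hpot : M_pot) (hs : M_side) (hh : M_half) (ht : M_tri) : M_key := by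
  intro V T Q c w hS χ hχ s t s' t' hsQ htQ hs'Q ht'Q hcr l l' m m' hl hl' hm hm' hcm hcm' hdis
  have hne : s ≠ t := by
    rintro rfl
    unfold Cross at hcr
    omega
  have hdis' : ∀ d ∈ l', d ∉ l ∧ T.rev d ∉ l := by
    intro d hd
    constructor
    · intro h
      exact (hdis d h).1 hd
    · intro h
      have := (hdis _ h).2
      rw [T.rev_rev] at this
      exact this hd
  obtain ⟨p, hp⟩ : ∃ p, p = 4 * s + 2 := ⟨_, rfl⟩
  obtain ⟨q, hq⟩ : ∃ q, (s < t ∧ q = 4 * t + 2) ∨ (t < s ∧ q = 4 * t + 2 + 4 * Q) := by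
    rcases lt_or_gt_of_ne hne with h | h
    · exact ⟨_, Or.inl ⟨h, rfl⟩⟩
    · exact ⟨_, Or.inr ⟨h, rfl⟩⟩
  have hcq : c q = c (4 * t + 2) := by
    rcases hq with ⟨_, rfl⟩ | ⟨_, rfl⟩
    · rfl
    · exact hS.per _
  have hl0 : T.IsWalk (c p) (c q) l := by rw [hcq, hp]; exact hl
  have hpl : ∀ u x, (x = 4 * u + 2 ∨ x = 4 * u + 2 + 4 * Q) → c x = c (4 * u + 2) := by
    rintro u x (rfl | rfl)
    · rfl
    · exact hS.per _
  have hs1 : s' ≠ s := by unfold Cross at hcr; omega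
  have hs2 : s' ≠ t := by unfold Cross at hcr; omega
  have ht1 : t' ≠ s := by unfold Cross at hcr; omega
  have ht2 : t' ≠ t := by unfold Cross at hcr; omega
  obtain ⟨x, hx, hxx⟩ := place hsQ htQ hs'Q hne hs1 hs2 hp hq
  obtain ⟨y, hy, hyy⟩ := place hsQ htQ ht'Q hne ht1 ht2 hp hq
  have hpq : p + 3 ≤ q := by omega
  have hqp : q + 3 ≤ p + 4 * Q := by omega
  have hl1 : T.IsWalk (c x) (c y) l' := by rw [hpl _ _ hx, hpl _ _ hy]; exact hl'
  have hcase : (p < x ∧ x < q ∧ q < y ∧ y < p + 4 * Q) ∨ (p < y ∧ y < q ∧ q < x ∧ x < p + 4 * Q) := by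
    unfold Cross at hcr
    omega
  rcases hcase with ⟨h1, h2, h3, h4⟩ | ⟨h1, h2, h3, h4⟩
  · exact core hpot hs hh ht hS hχ hpq hqp h1 h2 h3 h4 hl0 hl1 hm hm' hcm hcm' hdis'
  · have h5 := core hpot hs hh ht hS hχ hpq hqp h1 h2 h3 h4 hl0 hl1.reverse hm
      (m' := T.rev m') (T.mem_reverse_rev.2 (by rwa [T.rev_rev])) hcm (by rwa [T.CD_rev]) (by
        intro d hd
        have := hdis' _ (T.mem_reverse_rev.1 hd)
        rw [T.rev_rev] at this
        exact ⟨this.2, this.1⟩)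
    have h6 : χ (T.rev m') = χ m' := by
      rw [hχ.1]
      have : ∑ k ∈ Finset.range (4 * Q), T.cnt (w k) m' = 0 :=
        Finset.sum_eq_zero fun k _ => not_mem_of_not_CD hS hcm' k
      show χ m' + ∑ k ∈ Finset.range (4 * Q), T.cnt (w k) m' = χ m'
      rw [this, add_zero]
    rwa [h6] at h5

end Pool.Agent.Helper99.SC.KeyProof
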