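import Pool.Agent.Helper99.SC.Logic

/-!
Module SL2: the program decides satisfiability.
-/

set_option autoImplicit false

namespace Pool.Agent.Helper99.SC.ProgProof

open Function

lemma run_append (l l' : List Op) (x y : ℕ → Bool) :
    Run (l ++ l') x y ↔ ∃ z, Run l x z ∧ Run l' z y := by
  induction l generalizing x with
  | nil => simp [Run]
  | cons o l ih =>
    simp only [List.cons_append, Run, ih]
    constructor
    · rintro ⟨z, h1, w, h2, h3⟩
      exact ⟨w, ⟨z, h1, h2⟩, h3⟩
    · rintro ⟨w, ⟨z, h1, h2⟩, h3⟩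
      exact ⟨z, h1, w, h2, h3⟩

/-- the registers -/
def reg (x : ℕ → Bool) : ℕ → Bool := fun j => x (9 * j)

/-- The operations `l` can be performed iff the registers satisfy `φ`, and change them by `g`. -/
def Eff (l : List Op) (φ : (ℕ → Bool) → Prop) (g : (ℕ → Bool) → ℕ → Bool) : Prop :=
  ∃ F : (ℕ → Bool) → ℕ → Bool, (∀ x y, Run l x y ↔ φ (reg x) ∧ y = F x) ∧
    ∀ x, reg (F x) = g (reg x)

lemma eff_nil : Eff [] (fun _ => True) id :=
  ⟨id, fun x y => by simp [Run], fun x => rfl⟩

lemma Eff.append {l l' : List Op} {φ φ' : (ℕ → Bool) → Prop} {g g' : (ℕ → Bool) → ℕ → Bool}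
    (h : Eff l φ g) (h' : Eff l' φ' g') :
    Eff (l ++ l') (fun r => φ r ∧ φ' (g r)) (fun r => g' (g r)) := by
  obtain ⟨F, h1, h2⟩ := h
  obtain ⟨F', h3, h4⟩ := h'
  refine ⟨fun x => F' (F x), fun x y => ?_, fun x => by rw [h4, h2]⟩
  rw [run_append]
  constructor
  · rintro ⟨z, h5, h6⟩
    rw [h1] at h5
    obtain ⟨h5, rfl⟩ := h5
    rw [h3] at h6
    refine ⟨⟨h5, ?_⟩, h6.2⟩
    rw [← h2]
    exact h6.1
  · rintro ⟨⟨h5, h6⟩, rfl⟩
    refine ⟨F x, (h1 _ _).2 ⟨h5, rfl⟩, (h3 _ _).2 ⟨by rw [h2]; exact h6, rfl⟩⟩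

lemma Eff.congr {l : List Op} {φ φ' : (ℕ → Bool) → Prop} {g g' : (ℕ → Bool) → ℕ → Bool}
    (h : Eff l φ g) (h1 : ∀ r, φ r ↔ φ' r) (h2 : ∀ r, g r = g' r) : Eff l φ' g' := by
  obtain ⟨F, h3, h4⟩ := h
  exact ⟨F, fun x y => by rw [h3, h1], fun x => by rw [h4, h2]⟩

section

variable (h : M_macro)
include h

lemma eff_rst : Eff (rst 0) (fun _ => True) (fun r => update r 0 false) := by
  refine ⟨fun x => update x 0 false, fun x y => by rw [h.1]; simp, fun x => ?_⟩
  funext j
  unfold reg
  rcases Nat.eq_zero_or_pos j with rfl | hj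
  · simp
  · beta_reduce
    rw [update_of_ne (by omega), update_of_ne (by omega)]

lemma eff_swp (j : ℕ) : Eff (swp (9 * j)) (fun _ => True)
    (fun r i => if i = j then r (j + 1) else if i = j + 1 then r j else r i) := by
  obtain ⟨f, h1, h2⟩ := h.2.1 (9 * j)
  refine ⟨f, fun x y => by rw [h1]; simp, fun x => ?_⟩
  funext i
  unfold reg
  obtain ⟨a, b, c⟩ := h2 x
  beta_reduce
  split_ifs with h3 h4
  · subst h3
    rw [a]; congr 1
  · subst h4
    rw [show 9 * (j + 1) = 9 * j + 9 by ring, b]
  · exact c _ (by omega)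

lemma eff_orp (j : ℕ) : Eff (orp (9 * j)) (fun _ => True)
    (fun r i => if i = j then (r j || r (j + 1)) else r i) := by
  obtain ⟨f, h1, h2⟩ := h.2.2.1 (9 * j)
  refine ⟨f, fun x y => by rw [h1]; simp, fun x => ?_⟩
  funext i
  unfold reg
  obtain ⟨a, c⟩ := h2 x
  beta_reduce
  split_ifs with h3
  · subst h3
    rw [a]; congr 1
  · exact c _ (by omega)

lemma eff_orn (j : ℕ) : Eff (orn (9 * j)) (fun _ => True)
    (fun r i => if i = j then (r j || !r (j + 1)) else r i) := by
  obtain ⟨f, h1, h2⟩ := h.2.2.2.1 (9 * j)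
  refine ⟨f, fun x y => by rw [h1]; simp, fun x => ?_⟩
  funext i
  unfold reg
  obtain ⟨a, c⟩ := h2 x
  beta_reduce
  split_ifs with h3
  · subst h3
    rw [a]; congr 1
  · exact c _ (by omega)

lemma eff_ast (j : ℕ) : Eff (ast (9 * j)) (fun r => r j = true) id := by
  obtain ⟨f, h1, h2⟩ := h.2.2.2.2 (9 * j)
  refine ⟨f, fun x y => by rw [h1]; rfl, fun x => ?_⟩
  funext i
  exact h2 x _ (by omega)

lemma eff_lit (c : List (ℕ × Bool)) (j : ℕ) : Eff (litOps c j) (fun _ => True)
    (fun r i => if i = j then r (j + 1) else if i = j + 1 then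
      (r j || decide ((j, r (j + 1)) ∈ c)) else r i) := by
  have h1 : Eff (if (j, true) ∈ c then orp (9 * j) else []) (fun _ => True)
      (fun r i => if i = j then (r j || (decide ((j, true) ∈ c) && r (j + 1))) else r i) := by
    split_ifs with h0
    · refine (eff_orp h j).congr (fun _ => Iff.rfl) fun r => ?_
      simp [h0]
    · refine eff_nil.congr (fun _ => Iff.rfl) fun r => ?_
      funext i
      simp only [h0, decide_false, Bool.false_and, Bool.or_false, id]
      split_ifs with h2
      · rw [h2]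
      · rfl
  have h2 : Eff (if (j, false) ∈ c then orn (9 * j) else []) (fun _ => True)
      (fun r i => if i = j then (r j || (decide ((j, false) ∈ c) && !r (j + 1))) else r i) := by
    split_ifs with h0
    · refine (eff_orn h j).congr (fun _ => Iff.rfl) fun r => ?_
      simp [h0]
    · refine eff_nil.congr (fun _ => Iff.rfl) fun r => ?_
      funext i
      simp only [h0, decide_false, Bool.false_and, Bool.or_false, id]
      split_ifs with h2
      · rw [h2]
      · rfl
  refine ((h1.append h2).append (eff_swp h j)).congr (fun _ => by simp) fun r => ?_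
  funext i
  have e1 : j + 1 ≠ j := by omega
  by_cases hi : i = j
  · subst hi
    simp
  · by_cases hi2 : i = j + 1
    · subst hi2
      simp only [e1, if_false, if_true]
      cases r (j + 1) <;> simp
    · simp [hi, hi2]

/-- the accumulated value -/
def acc (c : List (ℕ × Bool)) (r : ℕ → Bool) : ℕ → Bool
  | 0 => r 0
  | m + 1 => (acc c r m || decide ((m, r (m + 1)) ∈ c))

omit h in
lemma acc_iff (c : List (ℕ × Bool)) (r : ℕ → Bool) (m : ℕ) :
    acc c r m = true ↔ (r 0 = true ∨ ∃ i < m, (i, r (i + 1)) ∈ c) := by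
  induction m with
  | zero => simp [acc]
  | succ m ih =>
    simp only [acc, Bool.or_eq_true, ih, decide_eq_true_eq]
    constructor
    · rintro ((h1 | ⟨i, h1, h2⟩) | h1)
      · exact Or.inl h1
      · exact Or.inr ⟨i, by omega, h2⟩
      · exact Or.inr ⟨m, by omega, h1⟩
    · rintro (h1 | ⟨i, h1, h2⟩)
      · exact Or.inl (Or.inl h1)
      · rcases Nat.lt_succ_iff_lt_or_eq.1 h1 with h3 | rfl
        · exact Or.inl (Or.inr ⟨i, h3, h2⟩)
        · exact Or.inr h2

lemma eff_lits (c : List (ℕ × Bool)) (m : ℕ) :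
    Eff ((List.range m).flatMap (litOps c)) (fun _ => True)
      (fun r i => if i < m then r (i + 1) else if i = m then acc c r m else r i) := by
  induction m with
  | zero =>
    refine eff_nil.congr (fun _ => Iff.rfl) fun r => ?_
    funext i
    simp only [Nat.not_lt_zero, if_false, id, acc]
    split_ifs with h1
    · rw [h1]
    · rfl
  | succ m ih =>
    rw [List.range_succ, List.flatMap_append]
    simp only [List.flatMap_cons, List.flatMap_nil, List.append_nil]
    refine (ih.append (eff_lit h c m)).congr (fun _ => by simp) fun r => ?_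
    funext i
    have e1 : ¬ (m + 1 < m) := by omega
    have e2 : m + 1 ≠ m := by omega
    simp only [lt_irrefl, e1, e2, if_false, if_true, acc]
    split_ifs <;> first | rfl | omega | (subst_vars; rfl)

lemma eff_back (n m : ℕ) (hm : m ≤ n) :
    Eff ((List.range m).flatMap fun j => swp (9 * (n - 1 - j))) (fun _ => True)
      (fun r i => if i = n - m then r n else if n - m < i ∧ i ≤ n then r (i - 1) else r i) := by
  induction m with
  | zero =>
    refine eff_nil.congr (fun _ => Iff.rfl) fun r => ?_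
    funext i
    simp only [id, Nat.sub_zero]
    split_ifs with h1
    · rw [h1]
    · omega
    · rfl
  | succ m ih =>
    rw [List.range_succ, List.flatMap_append]
    simp only [List.flatMap_cons, List.flatMap_nil, List.append_nil]
    refine ((ih (by omega)).append (eff_swp h (n - 1 - m))).congr (fun _ => by simp) fun r => ?_
    funext i
    have e1 : n - 1 - m + 1 = n - m := by omega
    have e2 : n - (m + 1) = n - 1 - m := by omega
    simp only [e1, e2, if_true]
    split_ifs <;> first | rfl | omega | (congr 1; omega)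

lemma eff_clause (n : ℕ) (c : List (ℕ × Bool)) (hc : ∀ l ∈ c, l.1 < n) :
    ∃ g, Eff (clauseOps n c) (fun r => ∃ l ∈ c, r (l.1 + 1) = l.2) g ∧
      ∀ r j, g r (j + 1) = r (j + 1) := by
  have e := (((eff_rst h).append (eff_lits h c n)).append (eff_ast h n)).append
    (eff_back h n n le_rfl)
  refine ⟨_, e.congr (fun r => ?_) (fun r => rfl), fun r j => ?_⟩
  · simp only [true_and, and_true, lt_irrefl, if_false, if_true]
    rw [acc_iff]
    simp only [update_self, Bool.false_eq_true, false_or]
    constructor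
    · rintro ⟨i, h1, h2⟩
      rw [update_of_ne (by omega)] at h2
      exact ⟨_, h2, rfl⟩
    · rintro ⟨⟨a, b⟩, h1, h2⟩
      refine ⟨a, hc _ h1, ?_⟩
      rw [update_of_ne (by omega)]
      simp only at h2
      rw [h2]
      exact h1
  · simp only [id, Nat.sub_self, Nat.succ_ne_zero, if_false, Nat.add_sub_cancel]
    have e0 : j + 1 ≠ 0 := by omega
    split_ifs <;> first | omega | (rw [update_of_ne (by omega)])

lemma eff_prog (n : ℕ) (cls : List (List (ℕ × Bool))) (hc : ∀ c ∈ cls, ∀ l ∈ c, l.1 < n) :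
    ∃ g, Eff (prog n cls) (fun r => ∀ c ∈ cls, ∃ l ∈ c, r (l.1 + 1) = l.2) g := by
  induction cls with
  | nil => exact ⟨id, eff_nil.congr (fun r => by simp) fun _ => rfl⟩
  | cons c cls ih =>
    obtain ⟨g, hg⟩ := ih fun c' hc' => hc c' (by simp [hc'])
    obtain ⟨g', hg', h2⟩ := eff_clause h n c (hc c (by simp))
    refine ⟨_, (hg'.append hg).congr (fun r => ?_) fun _ => rfl⟩
    simp only [h2, List.forall_mem_cons]

end

/-! ### validity -/

/-- the operations use columns up to `m` -/
def VV (m : ℕ) (l : List Op) : Prop :=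
  ∀ o ∈ l, o.1 < 4 ∧ o.2 ≤ m ∧ (o.1 = 1 → o.2 + 1 ≤ m) ∧ (o.1 = 2 → 0 < o.2)

lemma VV.append {m : ℕ} {l l' : List Op} (h : VV m l) (h' : VV m l') : VV m (l ++ l') := by
  intro o ho
  rcases List.mem_append.1 ho with h1 | h1
  · exact h o h1
  · exact h' o h1

lemma vv_cpr {m k : ℕ} (h : k + 1 ≤ m) : VV m (cpr k) := by
  intro o ho
  simp only [cpr, List.mem_cons, List.not_mem_nil, or_false] at ho
  rcases ho with rfl | rfl <;> simp <;> omega

lemma vv_cpl {m k : ℕ} (h : k + 1 ≤ m) : VV m (cpl k) := by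
  intro o ho
  simp only [cpl, List.mem_cons, List.not_mem_nil, or_false] at ho
  rcases ho with rfl | rfl <;> simp <;> omega

lemma vv_nnd {m k : ℕ} (h : k + 3 ≤ m) : VV m (nnd k) := by
  intro o ho
  simp only [nnd, List.mem_cons, List.not_mem_nil, or_false] at ho
  rcases ho with rfl | rfl | rfl | rfl | rfl | rfl | rfl | rfl | rfl | rfl | rfl <;> simp <;> omega

lemma vv_rst {m k : ℕ} (h : k ≤ m) : VV m (rst k) := by
  intro o ho
  simp only [rst, List.mem_cons, List.not_mem_nil, or_false] at ho
  rcases ho with rfl | rfl <;> simp <;> omega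

lemma vv_xorm {m k : ℕ} (h : k + 8 ≤ m) : VV m (xorm k) := by
  unfold xorm
  repeat' apply VV.append
  all_goals first | (apply vv_cpr; omega) | (apply vv_cpl; omega) | (apply vv_nnd; omega)

lemma vv_swp {m k : ℕ} (h : k + 9 ≤ m) : VV m (swp k) := by
  unfold swp
  repeat' apply VV.append
  all_goals first | (apply vv_cpr; omega) | (apply vv_cpl; omega) | (apply vv_nnd; omega)

lemma vv_orp {m k : ℕ} (h : k + 9 ≤ m) : VV m (orp k) := by
  unfold orp
  repeat' apply VV.append
  all_goals first | (apply vv_cpr; omega) | (apply vv_cpl; omega) | (apply vv_nnd; omega)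

lemma vv_orn {m k : ℕ} (h : k + 9 ≤ m) : VV m (orn k) := by
  unfold orn
  repeat' apply VV.append
  all_goals first | (apply vv_cpr; omega) | (apply vv_cpl; omega) | (apply vv_nnd; omega)

lemma vv_ast {m k : ℕ} (h : k + 3 ≤ m) : VV m (ast k) := by
  unfold ast
  repeat' apply VV.append
  · apply vv_cpr; omega
  · apply vv_cpr; omega
  · apply vv_cpr; omega
  · apply vv_nnd; omega
  · intro o ho
    simp only [List.mem_cons, List.not_mem_nil, or_false] at ho
    subst ho
    simp
    omega

lemma vv_flatMap {m n : ℕ} {f : ℕ → List Op} (h : ∀ j < n, VV m (f j)) :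
    VV m ((List.range n).flatMap f) := by
  intro o ho
  obtain ⟨j, h1, h2⟩ := List.mem_flatMap.1 ho
  exact h j (List.mem_range.1 h1) o h2

lemma vv_nil {m : ℕ} : VV m [] := fun o ho => absurd ho (by simp)

lemma vv_prog (n : ℕ) (cls : List (List (ℕ × Bool))) : VV (9 * n + 9) (prog n cls) := by
  intro o ho
  obtain ⟨c, _, h2⟩ := List.mem_flatMap.1 ho
  suffices hs : VV (9 * n + 9) (clauseOps n c) from hs o h2
  unfold clauseOps
  refine ((VV.append ?_ ?_).append ?_).append ?_
  · exact vv_rst (by omega)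
  · apply vv_flatMap
    intro j hj
    unfold litOps
    refine (VV.append ?_ ?_).append ?_
    · split_ifs
      · exact vv_orp (by omega)
      · exact vv_nil
    · split_ifs
      · exact vv_orn (by omega)
      · exact vv_nil
    · exact vv_swp (by omega)
  · exact vv_ast (by omega)
  · apply vv_flatMap
    intro j hj
    exact vv_swp (by omega)

theorem sl_prog (h : M_macro) : M_prog := by
  intro n cls hc
  constructor
  · intro o ho
    obtain ⟨h1, h2, h3, h4⟩ := vv_prog n cls o ho
    exact ⟨h1, by omega, fun h5 => by have := h3 h5; omega, h4⟩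
  · obtain ⟨g, F, h1, _⟩ := eff_prog h n cls hc
    constructor
    · rintro ⟨x, y, hxy⟩
      rw [h1] at hxy
      exact ⟨fun j => reg x (j + 1), hxy.1⟩
    · rintro ⟨β, hβ⟩
      refine ⟨fun i => β (i / 9 - 1), F _, (h1 _ _).2 ⟨?_, rfl⟩⟩
      intro c hcc
      obtain ⟨l, h2, h3⟩ := hβ c hcc
      refine ⟨l, h2, ?_⟩
      rw [← h3]
      show β (9 * (l.1 + 1) / 9 - 1) = β l.1
      congr 1
      omega

end Pool.Agent.Helper99.SC.ProgProof
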